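import Pool.Agent.Lib.MP_b7e22d_co.Main

set_option autoImplicit false

open Pool.Agent.Lib.MP_b7e22d_co

/-- There is a finite planar graph that is 1-defective 3-correspondable but not 4-choosable. -/
theorem Pool.Agent.Results.MP_b7e22d_co.PlanarExample.result :
    ∃ (V : Type) (_ : Fintype V) (G : SimpleGraph V),
      IsPlanar G ∧ IsDefectiveCorrespondable G 1 3 ∧ ¬ IsChoosable G 4 :=
  main
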